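import Pool.Agent.helper47.MSW.SpecA

/-! Row TRL of MSW (translation). -/

set_option autoImplicit false

namespace Pool.Agent.MSW

open Equiv Finset Function MeasureTheory Pool.Agent.helper48.PP
open Pool.Agent.DSW (Pr Has GP wt)
open scoped ENNReal Classical

noncomputable section

theorem TRL_HP {k : ℕ} (τ : Perm (Fin k)) (ω : Om) (a b c : Pt) :
    HP τ (fun d => ω (a + d)) b c ↔ HP τ ω (a + b) (a + c) := by
  constructor
  · rintro ⟨h, x, y, hx, hy, H⟩
    refine ⟨add_le_add_right h a, fun j => a.1 + x j, fun j => a.2 + y j, ?_, ?_, ?_⟩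
    · intro i j hij
      have := hx hij
      simp only
      omega
    · intro i j hij
      have := hy hij
      simp only
      omega
    · intro j
      obtain ⟨h1, h2, h3⟩ := H j
      exact ⟨h1, ⟨Nat.add_le_add_left h2.1 _, Nat.add_lt_add_left h2.2 _⟩,
        ⟨Nat.add_le_add_left h3.1 _, Nat.add_lt_add_left h3.2 _⟩⟩
  · rintro ⟨h, x, y, hx, hy, H⟩
    have hx1 : ∀ j, a.1 + b.1 ≤ x j ∧ x j < a.1 + c.1 := by
      intro j
      have := (H j).2.1
      rw [Prod.fst_add, Prod.fst_add] at this
      exact this
    have hy1 : ∀ j, a.2 + b.2 ≤ y j ∧ y j < a.2 + c.2 := by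
      intro j
      have := (H j).2.2
      rw [Prod.snd_add, Prod.snd_add] at this
      exact this
    refine ⟨le_of_add_le_add_left h, fun j => x j - a.1, fun j => y j - a.2, ?_, ?_, ?_⟩
    · intro i j hij
      have := hx hij
      have := hx1 i
      have := hx1 j
      simp only
      omega
    · intro i j hij
      have := hy hij
      have := hy1 i
      have := hy1 j
      simp only
      omega
    · intro j
      have h1 := hx1 j
      have h2 := hy1 (τ j)
      have h2' := hy1 j
      refine ⟨?_, ⟨?_, ?_⟩, ⟨?_, ?_⟩⟩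
      rotate_left
      · simp only
        omega
      · simp only
        omega
      · simp only
        omega
      · simp only
        omega
      have h3 : a + (x j - a.1, y (τ j) - a.2) = (x j, y (τ j)) := by
        apply Prod.ext
        · rw [Prod.fst_add]
          simp only
          omega
        · rw [Prod.snd_add]
          simp only
          omega
      simp only
      rw [h3]
      exact (H j).1

theorem TRL_HL (X : List Pat) (ω : Om) (a : Pt) :
    ∀ b c : Pt, HL X (fun d => ω (a + d)) b c ↔ HL X ω (a + b) (a + c) := by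
  induction X with
  | nil =>
    intro b c
    exact (add_le_add_iff_left a).symm
  | cons t l ih =>
    intro b c
    constructor
    · rintro ⟨m, h1, h2⟩
      exact ⟨a + m, (TRL_HP t.2 ω a b m).1 h1, (ih m c).1 h2⟩
    · rintro ⟨m, h1, h2⟩
      have h3 : a + b ≤ m := h1.1
      have h4 : a ≤ m := le_trans le_self_add h3
      obtain ⟨m', rfl⟩ := exists_add_of_le h4
      exact ⟨m', (TRL_HP t.2 ω a b m').2 h1, (ih m' c).2 h2⟩

theorem TRL (hHLA : HLA_stmt) (hTRN : TRN_stmt) : TRL_stmt := by
  refine ⟨fun X ω a b c => TRL_HL X ω a b c, ?_⟩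
  intro X p a c hp0 hp1
  have h1 := hTRN p (box 0 c) {ω | HL X ω 0 c} (fun d => a + d) hp0 hp1 (hHLA.2.2.2.1 X 0 c)
    (fun x _ y _ h => add_left_cancel h)
  have h2 : {ω : Om | (fun c => ω (a + c)) ∈ {ω : Om | HL X ω 0 c}} = {ω | HL X ω a (a + c)} := by
    ext ω
    change HL X (fun d => ω (a + d)) 0 c ↔ HL X ω a (a + c)
    rw [TRL_HL, add_zero]
  rw [h2] at h1
  exact h1

end

end Pool.Agent.MSW
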